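import Pool.Agent.Y132.SI.Free

/-!
# The Singer conjecture for Poincare duality groups in right-angled Coxeter groups

Let `L` be the flag complex of the finite graph `G`, and suppose that `L` is a homology manifold with the homology of
the `(n-1)`-sphere.  Then all torsion-free subgroups of finite index of the right-angled Coxeter group `W G` are
Poincare duality groups of dimension `n` (Davis): over the integers if `L` is an integral homology sphere, over the
reals in the generality of `HSph n G`.  They act freely and cocompactly on the Davis complex of `W G`.

The class `AQ n` contains the barycentric subdivisions of all the triangulated `(n-1)`-spheres, more generally the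
order complexes of the graded posets of length `n` which are Gorenstein* over `F_2`, and is closed under the
operations listed in its definition.  In the even dimensions `n = 2 m + 2` it contains every finite flag complex for
which the vertices whose links are not in the class `2 m + 1` span a subcomplex of dimension at most `m`.
-/

set_option autoImplicit false

namespace Pool.Agent.Results.MP_984acc_gt.ReflectionGroups

open Pool.Agent.W907.SG Pool.Agent.TH652.Above Pool.Agent.Y132.SI

/-- Let the flag complex of `G` be a real homology sphere of dimension `n - 1` in the class `AQ n`.
(1) The reduced `ℓ²`-homology of the Davis complex of `W G` vanishes in all degrees `i ≠ n / 2`.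
(2) For `n = 2 m` the number `(-1)^m χ(W G)` is not negative, `χ(W G) = ∑_T (-1/2)^|T|` over the cliques `T`.
(3) For each `ε > 0` there is a finite set `E` of nontrivial elements of `W G` such that for every subgroup `H` of
finite index of `W G` which contains no conjugate of an element of `E`, and for all `i`, the `i`-th real Betti number
of `H` (the dimension of the space of the `H`-invariant real harmonic `i`-chains of the Davis complex) differs by at
most `ε [W G : H]` from `0`, if `2 i ≠ n`, or from `(-1)^i χ(W G) [W G : H]`, if `2 i = n`. -/
theorem result : ∀ (n : ℕ) (V : Type) [Fintype V] [LinearOrder V] (G : SimpleGraph V), HSph n G → AQ n G →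
    (∀ i : ℕ, 2 * i ≠ n → L2Van G i) ∧
    (∀ m : ℕ, n = 2 * m → 0 ≤ (-1 : ℚ) ^ m * chiW G) ∧
    ∀ ε : ℝ, 0 < ε → ∃ E : Finset (W G), (1 : W G) ∉ E ∧
      ∀ H : Subgroup (W G), H.FiniteIndex → (∀ g ∈ E, ∀ x : W G, x * g * x⁻¹ ∉ H) → ∀ i : ℕ,
          |(Module.finrank ℝ (HInv G H i) : ℝ) -
            (if 2 * i = n then (-1) ^ i * (chiW G : ℝ) else 0) * H.index| ≤ ε * H.index := by
  intro n V _ _ G hS hA
  refine ⟨fun i hi => singer_AQ hS hA i hi, ?_, fun ε hε => growth_free G n (fun i hi => singer_AQ hS hA i hi) ε hε⟩
  rintro m rfl
  exact charney_davis_AQ hS hA

end Pool.Agent.Results.MP_984acc_gt.ReflectionGroups
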